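import Pool.Agent.N513.CE.Stm2

/-!
# Project CE (helper513), part LB2: the product trick (helper281)
-/

set_option autoImplicit false

namespace Pool.Agent.N281.CE

open Finset Pool.Agent.N513.CE
open Pool.Agent.N303.KS (ct ct_nonneg ct_le_sum ct_le_add ct_mono ct_split ct_univ ct_false ct_congr)

namespace LB2

theorem ncard_ct {A : Type} [Fintype A] (p : A → Prop) :
    ((({a | p a} : Set A).ncard : ℕ) : ℝ) = ct p := by
  classical
  unfold ct
  rw [Set.ncard_eq_toFinset_card']
  congr 2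
  ext a
  simp

/-- all coordinates in a set -/
theorem ct_all {V : Type} [Fintype V] (n : ℕ) (Z : V → Prop) :
    ct (fun x : Fin n → V => ∀ t, Z (x t)) = ct Z ^ n := by
  classical
  unfold ct
  have h : (univ.filter fun x : Fin n → V => ∀ t, Z (x t)) =
      Fintype.piFinset fun _ : Fin n => univ.filter Z := by
    ext x
    simp [Fintype.mem_piFinset]
  have h2 := Fintype.card_piFinset fun _ : Fin n => univ.filter Z
  rw [prod_const, card_univ, Fintype.card_fin] at h2
  have h3 : (univ.filter fun x : Fin n → V => ∀ t, Z (x t)).card = (univ.filter Z).card ^ n := by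
    rw [h, h2]
  have h4 : ((univ.filter fun x : Fin n → V => ∀ t, Z (x t)).card : ℝ) =
      ((univ.filter Z).card : ℝ) ^ n := by
    rw [h3]; push_cast; rfl
  convert h4

/-- one coordinate in a set -/
theorem ct_one {V : Type} [Fintype V] (n : ℕ) (t : Fin n) (Z : V → Prop) :
    ct (fun x : Fin n → V => Z (x t)) * Fintype.card V = ct Z * (Fintype.card V : ℝ) ^ n := by
  classical
  unfold ct
  have h : (univ.filter fun x : Fin n → V => Z (x t)) =
      Fintype.piFinset fun s : Fin n => if s = t then univ.filter Z else univ := by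
    ext x
    simp only [mem_filter, mem_univ, true_and, Fintype.mem_piFinset]
    constructor
    · intro hx s
      split_ifs with hs
      · rw [hs]; simpa using hx
      · exact mem_univ _
    · intro hx
      have := hx t
      rw [if_pos rfl] at this
      simpa using this
  have h2 := Fintype.card_piFinset fun s : Fin n => if s = t then univ.filter Z else univ
  have h3 : (∏ s : Fin n, (if s = t then univ.filter Z else univ : Finset V).card) =
      (univ.filter Z).card * Fintype.card V ^ (n - 1) := by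
    rw [← mul_prod_erase univ _ (mem_univ t), if_pos rfl]
    congr 1
    have h4 : ∀ s ∈ univ.erase t, (if s = t then univ.filter Z else univ : Finset V).card =
        Fintype.card V := by
      intro s hs
      rw [if_neg (ne_of_mem_erase hs), card_univ]
    rw [prod_congr rfl h4, prod_const, card_erase_of_mem (mem_univ t), card_univ, Fintype.card_fin]
  have hn : 1 ≤ n := Nat.one_le_iff_ne_zero.2 (by rintro rfl; exact t.elim0)
  have h5 : (univ.filter fun x : Fin n → V => Z (x t)).card * Fintype.card V =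
      (univ.filter Z).card * Fintype.card V ^ n := by
    rw [h, h2, h3, mul_assoc, ← pow_succ, Nat.sub_add_cancel hn]
  have h6 : ((univ.filter fun x : Fin n → V => Z (x t)).card : ℝ) * (Fintype.card V : ℝ) =
      ((univ.filter Z).card : ℝ) * (Fintype.card V : ℝ) ^ n := by
    exact_mod_cast h5
  convert h6

/-- one coordinate in a small set -/
theorem ct_one_le {V : Type} [Fintype V] [Nonempty V] (n : ℕ) (t : Fin n) (Z : V → Prop) (δ : ℝ)
    (h : ct Z ≤ δ * Fintype.card V) :
    ct (fun x : Fin n → V => Z (x t)) ≤ δ * (Fintype.card V : ℝ) ^ n := by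
  have hV : (0 : ℝ) < Fintype.card V := by exact_mod_cast Fintype.card_pos
  have h1 := ct_one n t Z
  have h2 : ct Z * (Fintype.card V : ℝ) ^ n ≤ δ * Fintype.card V * (Fintype.card V : ℝ) ^ n :=
    mul_le_mul_of_nonneg_right h (by positivity)
  rw [← h1] at h2
  have h3 : ct (fun x : Fin n → V => Z (x t)) * Fintype.card V ≤
      δ * (Fintype.card V : ℝ) ^ n * Fintype.card V := by linarith
  exact le_of_mul_le_mul_right h3 hV

/-- the coordinatewise permutation -/
def pw {V : Type} (n : ℕ) (σ : Equiv.Perm V) : Equiv.Perm (Fin n → V) :=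
  Equiv.piCongrRight fun _ => σ

theorem pw_apply {V : Type} (n : ℕ) (σ : Equiv.Perm V) (x : Fin n → V) (t : Fin n) :
    pw n σ x t = σ (x t) := rfl

theorem exists_n (e ε : ℝ) (he : 0 ≤ e) (hε : 0 < ε) : ∃ n : ℕ, e * (3 / 4 : ℝ) ^ n < ε := by
  obtain ⟨n, hn⟩ := exists_pow_lt_of_lt_one (show (0 : ℝ) < ε / (e + 1) by positivity)
    (show (3 / 4 : ℝ) < 1 by norm_num)
  refine ⟨n, ?_⟩
  rw [lt_div_iff₀ (by linarith)] at hn
  have h0 : (0 : ℝ) < (3 / 4) ^ n := by positivity
  nlinarith

end LB2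

open LB2 in
theorem t_LB2 : S_LB2 := by
  classical
  intro G _ K hSemi F E ε hε
  obtain ⟨n, hn⟩ := exists_n ((E.card : ℝ) * E.card) (ε / 4) (by positivity) (by linarith)
  obtain ⟨N, hN⟩ : ∃ N : ℝ, N = 4 * (n + 1) * (1 + F.card) * (1 + E.card) := ⟨_, rfl⟩
  have hN0 : 0 < N := by rw [hN]; positivity
  obtain ⟨V, O, iV, iN, iO, σ, lam, h1, h2, h3, h4⟩ := hSemi F E (ε / N) (by positivity)
  have hV : (0 : ℝ) < Fintype.card V := by exact_mod_cast Fintype.card_pos
  have hVn : (0 : ℝ) < (Fintype.card V : ℝ) ^ n := by positivity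
  have hcA : (Nat.card (Fin n → V) : ℝ) = (Fintype.card V : ℝ) ^ n := by
    rw [Nat.card_eq_fintype_card, Fintype.card_fun, Fintype.card_fin]
    push_cast
    rfl
  have hF0 : (0 : ℝ) ≤ F.card := Nat.cast_nonneg _
  have hE0 : (0 : ℝ) ≤ E.card := Nat.cast_nonneg _
  have hn0 : (0 : ℝ) ≤ n := Nat.cast_nonneg _
  have hsm1 : (n : ℝ) * (ε / N) ≤ ε / 4 := by
    rw [← mul_div_assoc, div_le_div_iff₀ hN0 (by norm_num), hN]
    have : (n : ℝ) * 4 ≤ 4 * (n + 1) * (1 + F.card) * (1 + E.card) := by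
      have e1 : (0 : ℝ) ≤ (n + 1) * (F.card + E.card + F.card * E.card) := by positivity
      nlinarith
    calc (n : ℝ) * ε * 4 = ε * (n * 4) := by ring
      _ ≤ ε * (4 * (n + 1) * (1 + F.card) * (1 + E.card)) := mul_le_mul_of_nonneg_left this hε.le
  have hsm2 : (n : ℝ) * (F.card * E.card) * (ε / N) ≤ ε / 4 := by
    rw [← mul_div_assoc, div_le_div_iff₀ hN0 (by norm_num), hN]
    have : (n : ℝ) * (F.card * E.card) * 4 ≤ 4 * (n + 1) * (1 + F.card) * (1 + E.card) := by
      have e1 : (0 : ℝ) ≤ (n + 1) * (1 + F.card + E.card) + F.card * E.card := by positivity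
      nlinarith
    calc (n : ℝ) * (F.card * E.card) * ε * 4 = ε * (n * (F.card * E.card) * 4) := by ring
      _ ≤ ε * (4 * (n + 1) * (1 + F.card) * (1 + E.card)) := mul_le_mul_of_nonneg_left this hε.le
  refine ⟨Fin n → V, inferInstance, fun g => pw n (σ g), ?_, ?_, ?_⟩
  · -- unital
    show pw n (σ 1) = 1
    rw [h1]
    ext x t
    rfl
  · -- almost multiplicative
    intro g hg h hh
    unfold Pool.Agent.N540.SA.hdist
    rw [ncard_ct, hcA, div_lt_iff₀ hVn]
    have e1 : ct (fun x : Fin n → V => pw n (σ (g * h)) x ≠ (pw n (σ g) * pw n (σ h)) x) ≤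
        ∑ t ∈ (univ : Finset (Fin n)), ct fun x : Fin n → V =>
          σ (g * h) (x t) ≠ σ g (σ h (x t)) := by
      refine ct_le_sum univ (fun (t : Fin n) (x : Fin n → V) =>
        σ (g * h) (x t) ≠ σ g (σ h (x t))) ?_
      intro x hx
      by_contra hcon
      push Not at hcon
      exact hx (funext fun t => hcon t (mem_univ t))
    refine lt_of_le_of_lt e1 ?_
    have e2 : ∑ t ∈ (univ : Finset (Fin n)), (ct fun x : Fin n → V =>
          σ (g * h) (x t) ≠ σ g (σ h (x t))) ≤ ∑ _t ∈ (univ : Finset (Fin n)),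
            ε / N * (Fintype.card V : ℝ) ^ n :=
      sum_le_sum fun t _ => ct_one_le n t (fun x => σ (g * h) x ≠ σ g (σ h x)) _ (h2 g hg h hh)
    refine lt_of_le_of_lt e2 ?_
    rw [sum_const, card_univ, Fintype.card_fin, nsmul_eq_mul, ← mul_assoc]
    refine lt_of_le_of_lt (mul_le_mul_of_nonneg_right hsm1 hVn.le) ?_
    exact mul_lt_mul_of_pos_right (by linarith) hVn
  · -- orbit approximation
    obtain ⟨P, hP⟩ : ∃ P : (Fin n → V) → Prop, P = fun x =>
        (∀ u ∈ E, ∀ u' ∈ E, u ≠ u' → ∃ t, lam (x t) u ≠ lam (x t) u') ∧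
        ∀ t, ∀ g ∈ F, ∀ u ∈ E, g⁻¹ • u ∈ E → lam (σ g (x t)) u = lam (x t) (g⁻¹ • u) := ⟨_, rfl⟩
    have hP1 : ∀ x, P x → ∀ u ∈ E, ∀ u' ∈ E, u ≠ u' → ∃ t, lam (x t) u ≠ lam (x t) u' := by
      intro x hx
      rw [hP] at hx
      exact hx.1
    have hP2 : ∀ x, P x → ∀ t, ∀ g ∈ F, ∀ u ∈ E, g⁻¹ • u ∈ E →
        lam (σ g (x t)) u = lam (x t) (g⁻¹ • u) := by
      intro x hx
      rw [hP] at hx
      exact hx.2
    refine ⟨Fin n → O, inferInstance, {x | P x}, fun s => ⟨fun u => fun t => lam (s.1 t) u.1, ?_⟩,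
      ?_, ?_⟩
    · intro u u' huu
      by_contra hne
      obtain ⟨t, ht⟩ := hP1 s.1 s.2 u.1 u.2 u'.1 u'.2 (fun h => hne (Subtype.ext h))
      exact ht (congrFun huu t)
    · rw [ncard_ct, hcA]
      have e0 : ct P + ct (fun x => ¬ P x) = (Fintype.card V : ℝ) ^ n := by
        have := ct_split (fun _ : Fin n → V => True) P
        rw [ct_univ, Fintype.card_fun, Fintype.card_fin] at this
        push_cast at this
        rw [this]
        congr 1
        · exact ct_congr fun a => by simp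
        · exact ct_congr fun a => by simp
      have e1 : ct (fun x => ¬ P x) ≤
          ct (fun x : Fin n → V => ∃ i ∈ E ×ˢ E, i.1 ≠ i.2 ∧ ∀ t, lam (x t) i.1 = lam (x t) i.2) +
          ct (fun x : Fin n → V => ∃ i ∈ (univ : Finset (Fin n)) ×ˢ (F ×ˢ E),
            i.2.1⁻¹ • i.2.2 ∈ E ∧ lam (σ i.2.1 (x i.1)) i.2.2 ≠ lam (x i.1) (i.2.1⁻¹ • i.2.2)) := by
        refine ct_le_add fun x hx => ?_
        rw [hP] at hx
        by_contra hcon
        push Not at hcon
        refine hx ⟨?_, ?_⟩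
        · intro u hu u' hu' huu
          exact hcon.1 (u, u') (mem_product.2 ⟨hu, hu'⟩) huu
        · intro t g hg u hu hgu
          exact hcon.2 (t, g, u) (mem_product.2 ⟨mem_univ t, mem_product.2 ⟨hg, hu⟩⟩) hgu
      have e2 : ct (fun x : Fin n → V => ∃ i ∈ E ×ˢ E, i.1 ≠ i.2 ∧
          ∀ t, lam (x t) i.1 = lam (x t) i.2) ≤
          ∑ _i ∈ E ×ˢ E, (3 / 4 : ℝ) ^ n * (Fintype.card V : ℝ) ^ n := by
        refine (ct_le_sum (E ×ˢ E) (fun i (x : Fin n → V) => i.1 ≠ i.2 ∧
          ∀ t, lam (x t) i.1 = lam (x t) i.2) fun x hx => hx).trans (sum_le_sum fun i hi => ?_)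
        rw [mem_product] at hi
        by_cases hii : i.1 = i.2
        · rw [ct_false fun x h => h.1 hii]
          positivity
        · refine (ct_mono fun x h => h.2).trans ?_
          rw [ct_all n fun v => lam v i.1 = lam v i.2, ← mul_pow]
          exact pow_le_pow_left₀ (ct_nonneg _) (h4 i.1 hi.1 i.2 hi.2 hii) n
      have e3 : ct (fun x : Fin n → V => ∃ i ∈ (univ : Finset (Fin n)) ×ˢ (F ×ˢ E),
            i.2.1⁻¹ • i.2.2 ∈ E ∧ lam (σ i.2.1 (x i.1)) i.2.2 ≠ lam (x i.1) (i.2.1⁻¹ • i.2.2)) ≤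
          ∑ _i ∈ (univ : Finset (Fin n)) ×ˢ (F ×ˢ E), ε / N * (Fintype.card V : ℝ) ^ n := by
        refine (ct_le_sum ((univ : Finset (Fin n)) ×ˢ (F ×ˢ E)) (fun i (x : Fin n → V) =>
          i.2.1⁻¹ • i.2.2 ∈ E ∧ lam (σ i.2.1 (x i.1)) i.2.2 ≠ lam (x i.1) (i.2.1⁻¹ • i.2.2))
          fun x hx => hx).trans (sum_le_sum fun i hi => ?_)
        rw [mem_product, mem_product] at hi
        by_cases hii : i.2.1⁻¹ • i.2.2 ∈ E
        · refine (ct_mono fun x h => h.2).trans ?_
          exact ct_one_le n i.1 (fun v => lam (σ i.2.1 v) i.2.2 ≠ lam v (i.2.1⁻¹ • i.2.2)) _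
            (h3 i.2.1 hi.2.1 i.2.2 hi.2.2 hii)
        · rw [ct_false fun x h => hii h.1]
          positivity
      rw [sum_const, card_product, nsmul_eq_mul] at e2
      rw [sum_const, card_product, card_product, card_univ, Fintype.card_fin, nsmul_eq_mul] at e3
      push_cast at e2 e3
      have e4 : (E.card : ℝ) * E.card * ((3 / 4 : ℝ) ^ n * (Fintype.card V : ℝ) ^ n) ≤
          ε / 4 * (Fintype.card V : ℝ) ^ n := by
        rw [← mul_assoc]
        exact mul_le_mul_of_nonneg_right hn.le hVn.le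
      have e5 : (n : ℝ) * (F.card * E.card) * (ε / N * (Fintype.card V : ℝ) ^ n) ≤
          ε / 4 * (Fintype.card V : ℝ) ^ n := by
        rw [← mul_assoc]
        exact mul_le_mul_of_nonneg_right hsm2 hVn.le
      have e6 : 0 < ε * (Fintype.card V : ℝ) ^ n := by positivity
      linarith
    · rintro ⟨s, hs⟩ ⟨s', hs'⟩ g hg ⟨x, hx⟩ ⟨x', hx'⟩ hgs hgx
      have hgx' : g⁻¹ • x = x' := hgx
      show (fun t => lam (s' t) x) = fun t => lam (s t) x'
      funext t
      have e1 : s' t = σ g (s t) := by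
        have : pw n (σ g) s = s' := hgs
        rw [← this]
        rfl
      rw [e1, ← hgx']
      exact hP2 s hs t g hg x hx (by rw [hgx']; exact hx')

end Pool.Agent.N281.CE
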